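import Mathlib
import Pool.Agent.Q181.MaxMinMetric

/-!
MP_6cdbe4_gt, Q1 (disproof): for every `n ≥ 1` the functor `SP^n` has at least two extensions onto
the Kleisli category of the monad of max-min measures of finite support.
-/

namespace Pool.Agent.Results.MP_6cdbe4_gt.KleisliExtensionNotUnique

open CategoryTheory Set Pool.Agent.Q181.MaxMin

/-- Ultrametric spaces. -/
structure UMet where
  /-- the underlying set -/
  carrier : Type
  [metric : MetricSpace carrier]
  [ultra : IsUltrametricDist carrier]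

attribute [instance] UMet.metric UMet.ultra

/-- Nonexpanding maps. -/
@[ext] structure UMet.Hom (X Y : UMet) where
  /-- the underlying map -/
  fn : X.carrier → Y.carrier
  nonexp : ∀ x y, dist (fn x) (fn y) ≤ dist x y

/-- The category of ultrametric spaces and nonexpanding maps. -/
instance : Category UMet where
  Hom := UMet.Hom
  id X := ⟨id, fun _ _ => le_rfl⟩
  comp f g := ⟨g.fn ∘ f.fn, fun x y => (g.nonexp _ _).trans (f.nonexp x y)⟩

lemma UMet.hom_ext {X Y : UMet} {f g : X ⟶ Y} (h : ∀ x, f.fn x = g.fn x) : f = g :=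
  UMet.Hom.ext (funext h)

lemma UMet.comp_fn {X Y Z : UMet} (f : X ⟶ Y) (g : Y ⟶ Z) (x : X.carrier) :
    (f ≫ g).fn x = g.fn (f.fn x) := rfl

lemma UMet.id_fn (X : UMet) (x : X.carrier) : UMet.Hom.fn (𝟙 X) x = x := rfl

/-- The functor `J_ω` of max-min measures of finite support. -/
noncomputable def J : UMet ⥤ UMet where
  obj X := ⟨MM X.carrier⟩
  map f := ⟨MM.push f.fn, fun μ ν => MM.dist_push_le f.nonexp μ ν⟩
  map_id X := UMet.hom_ext fun μ => MM.push_id μ
  map_comp f g := UMet.hom_ext fun μ => (MM.push_push f.fn g.fn μ).symm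

/-- The monad `(J_ω, δ, ξ)`. -/
noncomputable def JMonad : Monad UMet where
  toFunctor := J
  η :=
    { app := fun X => ⟨MM.dirac, MM.dist_dirac_le⟩
      naturality := fun X Y f => UMet.hom_ext fun x => (MM.push_dirac f.fn x).symm }
  μ :=
    { app := fun X => ⟨MM.join, MM.dist_join_le⟩
      naturality := fun X Y f => UMet.hom_ext fun M => MM.join_naturality f.fn M }
  assoc X := UMet.hom_ext fun M => MM.join_assoc M
  left_unit X := UMet.hom_ext fun μ => MM.join_dirac μ
  right_unit X := UMet.hom_ext fun μ => MM.join_push_dirac μ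

/-! ### Symmetric powers -/

/-- Two `n`-tuples are equivalent if they differ by a permutation. -/
def permSetoid (X : Type) (n : ℕ) : Setoid (Fin n → X) where
  r x y := ∃ σ : Equiv.Perm (Fin n), y = x ∘ σ
  iseqv := by
    refine ⟨fun x => ⟨1, rfl⟩, ?_, ?_⟩
    · rintro x _ ⟨σ, rfl⟩
      refine ⟨σ⁻¹, ?_⟩
      funext i
      simp
    · rintro x _ _ ⟨σ, rfl⟩ ⟨τ, rfl⟩
      exact ⟨σ * τ, rfl⟩

/-- The symmetric power `X^n / S_n`. -/
def SP (X : Type) (n : ℕ) : Type := Quotient (permSetoid X n)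

/-- The orbit `[x₁, …, xₙ]`. -/
def SP.mk {X : Type} {n : ℕ} (x : Fin n → X) : SP X n := Quotient.mk (permSetoid X n) x

lemma SP.mk_eq {X : Type} {n : ℕ} {x y : Fin n → X} :
    SP.mk x = SP.mk y ↔ ∃ σ : Equiv.Perm (Fin n), y = x ∘ σ := Quotient.eq (r := permSetoid X n)

lemma SP.mk_comp {X : Type} {n : ℕ} (x : Fin n → X) (σ : Equiv.Perm (Fin n)) :
    SP.mk (x ∘ σ) = SP.mk x := (SP.mk_eq.2 ⟨σ, rfl⟩).symm

lemma SP.ind {X : Type} {n : ℕ} {P : SP X n → Prop} (h : ∀ x, P (SP.mk x)) (z : SP X n) : P z :=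
  Quotient.ind h z

section Metric
variable {X : Type} [MetricSpace X] [IsUltrametricDist X] {n : ℕ}

lemma dist_comp_perm (x y : Fin n → X) (τ : Equiv.Perm (Fin n)) :
    dist (x ∘ τ) (y ∘ τ) = dist x y := by
  apply le_antisymm
  · exact (dist_pi_le_iff dist_nonneg).2 fun i => dist_le_pi_dist x y (τ i)
  · refine (dist_pi_le_iff dist_nonneg).2 fun i => ?_
    have := dist_le_pi_dist (x ∘ τ) (y ∘ τ) (τ⁻¹ i)
    simpa using this

/-- `min_σ max_i d(x_i, y_{σ(i)})`. -/
noncomputable def preDist (x y : Fin n → X) : ℝ :=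
  ⨅ σ : Equiv.Perm (Fin n), dist x (y ∘ σ)

lemma exists_preDist (x y : Fin n → X) : ∃ σ : Equiv.Perm (Fin n), preDist x y = dist x (y ∘ σ) :=
  (exists_eq_ciInf_of_finite (f := fun σ : Equiv.Perm (Fin n) => dist x (y ∘ σ))).imp
    fun _ h => h.symm

lemma preDist_le (x y : Fin n → X) (σ : Equiv.Perm (Fin n)) : preDist x y ≤ dist x (y ∘ σ) :=
  ciInf_le (Set.finite_range _).bddBelow σ

lemma preDist_comp_right (x y : Fin n → X) (τ : Equiv.Perm (Fin n)) :
    preDist x (y ∘ τ) = preDist x y := by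
  apply le_antisymm
  · obtain ⟨σ, hσ⟩ := exists_preDist x y
    rw [hσ]
    have := preDist_le x (y ∘ τ) (τ⁻¹ * σ)
    have e : (y ∘ τ) ∘ (τ⁻¹ * σ : Equiv.Perm (Fin n)) = y ∘ σ := by
      funext i; simp
    rwa [e] at this
  · obtain ⟨σ, hσ⟩ := exists_preDist x (y ∘ τ)
    rw [hσ]
    exact preDist_le x y (τ * σ)

lemma preDist_comm (x y : Fin n → X) : preDist x y = preDist y x := by
  have key : ∀ x y : Fin n → X, preDist x y ≤ preDist y x := by
    intro x y
    obtain ⟨σ, hσ⟩ := exists_preDist y x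
    rw [hσ]
    have h1 := preDist_le x y σ⁻¹
    have h2 : dist y (x ∘ σ) = dist x (y ∘ (σ⁻¹ : Equiv.Perm (Fin n))) := by
      rw [← dist_comp_perm y (x ∘ σ) σ⁻¹, dist_comm]
      congr 1
      funext i; simp
    rw [h2]; exact h1
  exact le_antisymm (key x y) (key y x)

lemma preDist_comp_left (x y : Fin n → X) (τ : Equiv.Perm (Fin n)) :
    preDist (x ∘ τ) y = preDist x y := by
  rw [preDist_comm, preDist_comp_right, preDist_comm]

lemma preDist_triangle_max (x y z : Fin n → X) :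
    preDist x z ≤ max (preDist x y) (preDist y z) := by
  obtain ⟨σ, hσ⟩ := exists_preDist x y
  obtain ⟨τ, hτ⟩ := exists_preDist y z
  rw [hσ, hτ, ← dist_comp_perm y (z ∘ τ) σ]
  exact (preDist_le x z (τ * σ)).trans (dist_triangle_max x (y ∘ σ) ((z ∘ τ) ∘ σ))

/-- The metric of `SP^n X`. -/
noncomputable instance : MetricSpace (SP X n) where
  dist := Quotient.lift₂ preDist (by
    rintro a₁ b₁ a₂ b₂ ⟨σ, rfl⟩ ⟨τ, rfl⟩
    rw [preDist_comp_left, preDist_comp_right])
  dist_self := by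
    refine SP.ind fun x => ?_
    change preDist x x = 0
    apply le_antisymm
    · have := preDist_le x x 1
      simpa using this
    · obtain ⟨σ, hσ⟩ := exists_preDist x x
      rw [hσ]; exact dist_nonneg
  dist_comm := by
    refine SP.ind fun x => SP.ind fun y => ?_
    exact preDist_comm x y
  dist_triangle := by
    refine SP.ind fun x => SP.ind fun y => SP.ind fun z => ?_
    change preDist x z ≤ preDist x y + preDist y z
    have h0 : ∀ a b : Fin n → X, 0 ≤ preDist a b := fun a b => by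
      obtain ⟨σ, hσ⟩ := exists_preDist a b
      rw [hσ]; exact dist_nonneg
    exact (preDist_triangle_max x y z).trans (max_le_add_of_nonneg (h0 _ _) (h0 _ _))
  eq_of_dist_eq_zero := by
    intro x y
    induction x using SP.ind with | h x => ?_
    induction y using SP.ind with | h y => ?_
    intro h
    have h' : preDist x y = 0 := h
    obtain ⟨σ, hσ⟩ := exists_preDist x y
    rw [hσ] at h'
    have := eq_of_dist_eq_zero h'
    rw [this, SP.mk_comp]

lemma SP.dist_mk (x y : Fin n → X) : dist (SP.mk x) (SP.mk y) = preDist x y := rfl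

lemma SP.dist_mk_le (x y : Fin n → X) : dist (SP.mk x) (SP.mk y) ≤ dist x y := by
  rw [SP.dist_mk]
  have := preDist_le x y 1
  simpa using this

instance : IsUltrametricDist (SP X n) := by
  refine ⟨?_⟩
  refine SP.ind fun x => SP.ind fun y => SP.ind fun z => ?_
  exact preDist_triangle_max x y z

/-- It suffices to check nonexpansiveness on tuples. -/
lemma SP.nonexpanding {Y : Type} [MetricSpace Y] {g : SP X n → Y}
    (h : ∀ x y : Fin n → X, dist (g (SP.mk x)) (g (SP.mk y)) ≤ dist x y) (z w : SP X n) :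
    dist (g z) (g w) ≤ dist z w := by
  revert w
  revert z
  refine SP.ind fun x => SP.ind fun y => ?_
  rw [SP.dist_mk]
  obtain ⟨σ, hσ⟩ := exists_preDist x y
  rw [hσ, ← SP.mk_comp y σ]
  exact h x (y ∘ σ)

end Metric

/-- The functorial map `[x_i] ↦ [f(x_i)]`. -/
def SP.map {X Y : Type} {n : ℕ} (f : X → Y) : SP X n → SP Y n :=
  Quotient.lift (fun x => SP.mk (f ∘ x)) (by
    rintro x _ ⟨σ, rfl⟩
    exact (SP.mk_comp (f ∘ x) σ).symm)

lemma SP.map_mk {X Y : Type} {n : ℕ} (f : X → Y) (x : Fin n → X) :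
    SP.map f (SP.mk x) = SP.mk (f ∘ x) := rfl

lemma dist_comp_le {X Y : Type} [MetricSpace X] [MetricSpace Y] {n : ℕ} {f : X → Y}
    (hf : ∀ x y, dist (f x) (f y) ≤ dist x y) (x y : Fin n → X) :
    dist (f ∘ x) (f ∘ y) ≤ dist x y :=
  (dist_pi_le_iff dist_nonneg).2 fun i => (hf _ _).trans (dist_le_pi_dist x y i)

/-- The functor `SP^n` on ultrametric spaces. -/
noncomputable def SPn (n : ℕ) : UMet ⥤ UMet where
  obj X := ⟨SP X.carrier n⟩
  map f := ⟨SP.map f.fn, SP.nonexpanding fun x y =>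
    (SP.dist_mk_le _ _).trans (dist_comp_le f.nonexp x y)⟩
  map_id X := UMet.hom_ext (SP.ind fun x => rfl)
  map_comp f g := UMet.hom_ext (SP.ind fun x => rfl)

/-! ### The two extensions -/

section Lambda
variable {X : Type} [MetricSpace X] [IsUltrametricDist X] {n : ℕ}

/-- `λ([μ₁, …, μₙ])`: the image of the product measure on `SP^n X`. -/
noncomputable def preLam (μ : Fin n → MM X) : MM (SP X n) := MM.push SP.mk (MM.prod μ)

lemma preLam_comp (μ : Fin n → MM X) (σ : Equiv.Perm (Fin n)) : preLam (μ ∘ σ) = preLam μ := by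
  have key : ∀ (μ : Fin n → MM X) (σ : Equiv.Perm (Fin n)) (z : SP X n),
      (preLam (μ ∘ σ)).w z ≤ (preLam μ).w z := by
    intro μ σ z
    change (⨆ (x : Fin n → X) (_ : SP.mk x = z), ⨅ i, (μ (σ i)).w (x i)) ≤
      ⨆ (x : Fin n → X) (_ : SP.mk x = z), ⨅ i, (μ i).w (x i)
    refine iSup₂_le fun x hx => ?_
    refine le_iSup₂_of_le (x ∘ (σ⁻¹ : Equiv.Perm (Fin n))) (by rw [SP.mk_comp, hx]) ?_
    refine le_iInf fun i => (iInf_le _ (σ⁻¹ i)).trans (le_of_eq ?_)
    simp
  ext z
  refine le_antisymm (key μ σ z) ?_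
  have := key (μ ∘ σ) σ⁻¹ z
  have e : (μ ∘ σ) ∘ (σ⁻¹ : Equiv.Perm (Fin n)) = μ := by
    funext i; simp
  rwa [e] at this

/-- The distributive law `λ : SP^n J_ω → J_ω SP^n`. -/
noncomputable def lam : SP (MM X) n → MM (SP X n) :=
  Quotient.lift preLam (by
    rintro μ _ ⟨σ, rfl⟩
    exact (preLam_comp μ σ).symm)

lemma lam_mk (μ : Fin n → MM X) : lam (SP.mk μ) = preLam μ := rfl

lemma dist_lam_le (z w : SP (MM X) n) : dist (lam z) (lam w) ≤ dist z w :=
  SP.nonexpanding (fun μ ν => (MM.dist_push_le SP.dist_mk_le _ _).trans (MM.dist_prod_le μ ν)) z w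

end Lambda

/-- Uncurried description of morphisms of the Kleisli category. -/
lemma kleisli_ext {X Y : Kleisli JMonad} {f g : X ⟶ Y}
    (h : ∀ x : X.of.carrier, f.of.fn x = g.of.fn x) : f = g :=
  Kleisli.hom_ext (UMet.hom_ext h)

lemma kleisli_comp {X Y Z : Kleisli JMonad} (f : X ⟶ Y) (g : Y ⟶ Z) (x : X.of.carrier) :
    (f ≫ g).of.fn x = MM.join (MM.push g.of.fn (f.of.fn x)) := rfl

lemma kleisli_id (X : Kleisli JMonad) (x : X.of.carrier) :
    (Kleisli.Hom.of (𝟙 X)).fn x = MM.dirac x := rfl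

lemma lam_dirac {X : Type} [MetricSpace X] [IsUltrametricDist X] {n : ℕ} (x : Fin n → X) :
    lam (SP.mk (MM.dirac ∘ x)) = MM.dirac (SP.mk x) := by
  rw [lam_mk]
  unfold preLam
  have : MM.prod (MM.dirac ∘ x) = MM.dirac x := MM.prod_dirac x
  rw [this, MM.push_dirac]

lemma lam_bind {X Y : Type} [MetricSpace X] [IsUltrametricDist X] [MetricSpace Y]
    [IsUltrametricDist Y] {n : ℕ} (g : X → MM Y) (μ : Fin n → MM X) :
    lam (SP.mk fun i => MM.join (MM.push g (μ i))) =
      MM.join (MM.push (fun z => lam (SP.map g z)) (lam (SP.mk μ))) := by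
  rw [lam_mk, lam_mk]
  unfold preLam
  rw [MM.prod_bind, MM.push_push, ← MM.join_naturality, MM.push_push]
  rfl

/-- The first extension of `SP^n`. -/
noncomputable def ext₁ (n : ℕ) : Kleisli JMonad ⥤ Kleisli JMonad where
  obj X := .mk JMonad ((SPn n).obj X.of)
  map {X Y} f := .mk (⟨fun z => lam (SP.map f.of.fn z), fun z w =>
    (dist_lam_le _ _).trans (((SPn n).map f.of).nonexp z w)⟩ :
      (SPn n).obj X.of ⟶ J.obj ((SPn n).obj Y.of))
  map_id X := by
    apply kleisli_ext
    exact SP.ind fun x => lam_dirac x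
  map_comp {X Y Z} f g := by
    apply kleisli_ext
    refine SP.ind fun x => ?_
    exact lam_bind g.of.fn (fun i => f.of.fn (x i))

/-- The endofunctor of the Kleisli category given by the twist. -/
noncomputable def Tw : Kleisli JMonad ⥤ Kleisli JMonad where
  obj X := X
  map {X Y} f := .mk (⟨fun z => MM.twist (f.of.fn z), fun z w =>
    (MM.dist_twist_le _ _).trans (f.of.nonexp z w)⟩ : X.of ⟶ J.obj Y.of)
  map_id X := by
    apply kleisli_ext
    exact fun x => MM.twist_dirac x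
  map_comp {X Y Z} f g := by
    apply kleisli_ext
    intro x
    exact MM.twist_bind g.of.fn (f.of.fn x)

/-- `F̄ ∘ Φ = Φ ∘ F`: the functor `F̄` on the Kleisli category extends `F`. -/
def Extends (Fbar : Kleisli JMonad ⥤ Kleisli JMonad) (F : UMet ⥤ UMet) : Prop :=
  Kleisli.Adjunction.toKleisli JMonad ⋙ Fbar = F ⋙ Kleisli.Adjunction.toKleisli JMonad

lemma extends_ext₁ (n : ℕ) : Extends (ext₁ n) (SPn n) := by
  refine CategoryTheory.Functor.hext (fun X => rfl) fun X Y f => heq_of_eq ?_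
  apply kleisli_ext
  exact SP.ind fun x => lam_dirac (fun i => f.fn (x i))

lemma extends_Tw : Extends Tw (𝟭 UMet) := by
  refine CategoryTheory.Functor.hext (fun X => rfl) fun X Y f => heq_of_eq ?_
  apply kleisli_ext
  exact fun x => MM.twist_dirac _

lemma extends_ext₂ (n : ℕ) : Extends (Tw ⋙ ext₁ n) (SPn n) := by
  have h1 : Kleisli.Adjunction.toKleisli JMonad ⋙ Tw = 𝟭 UMet ⋙ Kleisli.Adjunction.toKleisli JMonad :=
    extends_Tw
  have h2 : Kleisli.Adjunction.toKleisli JMonad ⋙ ext₁ n =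
    SPn n ⋙ Kleisli.Adjunction.toKleisli JMonad := extends_ext₁ n
  change Kleisli.Adjunction.toKleisli JMonad ⋙ Tw ⋙ ext₁ n = _
  rw [← Functor.assoc, h1, Functor.id_comp, h2]

/-! ### The extensions are different -/

/-- A two-point space. -/
inductive Two
  | a | b
  deriving DecidableEq

instance : MetricSpace Two where
  dist x y := if x = y then 0 else 1
  dist_self x := by simp
  dist_comm x y := by simp [eq_comm]
  dist_triangle x y z := by cases x <;> cases y <;> cases z <;> simp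
  eq_of_dist_eq_zero := by
    intro x y h
    by_contra hne
    simp [hne] at h

lemma Two.dist_eq (x y : Two) : dist x y = if x = y then 0 else 1 := rfl

instance : IsUltrametricDist Two := by
  refine ⟨fun x y z => ?_⟩
  rw [Two.dist_eq, Two.dist_eq, Two.dist_eq]
  cases x <;> cases y <;> cases z <;> simp

/-- The measure `∞ ∧ δ_a ∨ 0 ∧ δ_b`. -/
noncomputable def m₀ : MM Two where
  w x := match x with
    | .a => ⊤
    | .b => 0
  fin := (Set.toFinite (Set.range fun i : Bool => if i then Two.a else Two.b)).subset (by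
    rintro x -
    cases x
    · exact ⟨true, rfl⟩
    · exact ⟨false, rfl⟩)
  top := ⟨.a, rfl⟩

lemma preLam_b {n : ℕ} (hn : 0 < n) (μ : MM Two) :
    (preLam (fun _ : Fin n => μ)).w (SP.mk fun _ => Two.b) = μ.w .b := by
  change (⨆ (x : Fin n → Two) (_ : SP.mk x = SP.mk fun _ => Two.b), ⨅ i, μ.w (x i)) = μ.w .b
  apply le_antisymm
  · refine iSup₂_le fun x hx => ?_
    obtain ⟨σ, hσ⟩ := SP.mk_eq.1 hx
    have hx' : x (σ ⟨0, hn⟩) = Two.b := (congrFun hσ ⟨0, hn⟩).symm
    refine (iInf_le _ (σ ⟨0, hn⟩)).trans (le_of_eq ?_)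
    rw [hx']
  · exact le_iSup₂_of_le (fun _ => Two.b) rfl (le_iInf fun _ => le_rfl)

/-- Q1 of MP_6cdbe4_gt is disproved: for every `n ≥ 1` there are two distinct functors on the
Kleisli category extending `SP^n`. -/
theorem result : ∀ n : ℕ, 1 ≤ n → ∃ F₁ F₂ : Kleisli JMonad ⥤ Kleisli JMonad,
    Extends F₁ (SPn n) ∧ Extends F₂ (SPn n) ∧ F₁ ≠ F₂ := by
  intro n hn
  refine ⟨ext₁ n, Tw ⋙ ext₁ n, extends_ext₁ n, extends_ext₂ n, fun heq => ?_⟩
  -- evaluate on the constant map with value `m₀`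
  let X : UMet := ⟨Two⟩
  let f : (Kleisli.mk JMonad X) ⟶ (Kleisli.mk JMonad X) :=
    .mk (⟨fun _ => m₀, fun x y => (dist_self (m₀ : MM Two)).trans_le dist_nonneg⟩ : X ⟶ J.obj X)
  have h0 : ∀ G : Kleisli JMonad ⥤ Kleisli JMonad, ext₁ n = G → HEq ((ext₁ n).map f) (G.map f) := by
    rintro _ rfl; rfl
  have h1 : (ext₁ n).map f = (Tw ⋙ ext₁ n).map f := eq_of_heq (h0 _ heq)
  have h2 : (preLam (fun _ : Fin n => m₀)) = preLam (fun _ : Fin n => MM.twist m₀) :=
    congrArg (fun g : (Kleisli.mk JMonad ((SPn n).obj X)) ⟶ (Kleisli.mk JMonad ((SPn n).obj X)) =>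
      g.of.fn (SP.mk fun _ => Two.a)) h1
  have h3 : (preLam (fun _ : Fin n => m₀)).w (SP.mk fun _ => Two.b) =
      (preLam (fun _ : Fin n => MM.twist m₀)).w (SP.mk fun _ => Two.b) := by rw [h2]
  rw [preLam_b hn, preLam_b hn] at h3
  have h4 : (MM.twist m₀).w .b = ⊥ := MM.theta_zero
  have h5 : m₀.w .b = 0 := rfl
  rw [h4, h5] at h3
  exact EReal.zero_ne_bot h3

end Pool.Agent.Results.MP_6cdbe4_gt.KleisliExtensionNotUnique
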